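import Pool.Agent.Lib.MP_7ffa02_nt.Short2

/-!
The number `C_r` of connected components of the closure of the set of values of
`σ_{-r}(n) = ∑_{d ∣ n} d^{-r}` satisfies `log C_r = O(r log² r)`.
-/

namespace Pool.Agent.Results.MP_7ffa02_nt.Upper

theorem result : ∃ C : ℝ, ∀ r : ℝ, 3 ≤ r → ∃ N : ℕ,
    ENat.card (ConnectedComponents
      (closure {x : ℝ | ∃ n : ℕ, 1 ≤ n ∧ x = ∑ d ∈ n.divisors, (d : ℝ) ^ (-r)})) = N ∧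
    (N : ℝ) ≤ Real.exp (C * r * Real.log r ^ 2) := by
  obtain ⟨C, h⟩ := Pool.Agent.Lib.MP_7ffa02_nt.upper
  refine ⟨C, fun r hr => ?_⟩
  obtain ⟨h1, h2⟩ := h r hr
  have e : {x : ℝ | ∃ n : ℕ, 1 ≤ n ∧ x = ∑ d ∈ n.divisors, (d : ℝ) ^ (-r)} =
      Pool.Agent.Lib.MP_7ffa02_nt.sg r '' {n | 1 ≤ n} :=
    Set.ext fun x => ⟨fun ⟨n, a, b⟩ => ⟨n, a, b.symm⟩, fun ⟨n, a, b⟩ => ⟨n, a, b.symm⟩⟩
  rw [e]
  exact ⟨_, ENat.card_eq_coe_natCard (ConnectedComponents (Pool.Agent.Lib.MP_7ffa02_nt.KK r)), h2⟩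

end Pool.Agent.Results.MP_7ffa02_nt.Upper
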